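import Pool.Agent.Q78.TreeShift.Main

open Q78.TreeShift

/-- Q1: every entropy of a nonempty one-dimensional matrix shift is the entropy of a tree-shift of
finite type; moreover such a tree-shift exists on the `d`-ary tree for every `d ≥ 2` with
`d ≥ ρ(A)`. -/
theorem Pool.Agent.Results.MP_29bdbb_an.SFTEntropiesByTreeShifts.result
    {ι : Type} [Fintype ι] [DecidableEq ι] (A : Matrix ι ι ℕ)
    (_hA : ∀ i j, A i j = 0 ∨ A i j = 1) (hX : (matrixShift A).Nonempty) :
    (∃ d : ℕ, 2 ≤ d ∧ IsTSFTEntropy d (Real.log (rho A))) ∧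
      ∀ d : ℕ, 2 ≤ d → rho A ≤ d → IsTSFTEntropy d (Real.log (rho A)) := by
  refine ⟨⟨max 2 ⌈rho A⌉₊, le_max_left _ _, ?_⟩, fun d hd h => exists_of_rho_le hX hd h⟩
  refine exists_of_rho_le hX (le_max_left _ _) ?_
  refine (Nat.le_ceil (rho A)).trans ?_
  exact_mod_cast le_max_right 2 ⌈rho A⌉₊
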